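import Pool.Agent.PSS.StmtsS4

/-!
# Squad PSS, row NFR: the frame of `N_W(A)`
-/

open scoped BigOperators TensorProduct

noncomputable section

namespace Pool.Agent.PSS.H45

open Pool.Agent.PFC (tw IsTv)
open Pool.Agent.PFD.D2b (FrR)

theorem sum_inst {ι M : Type} [AddCommMonoid M] (i1 i2 : Fintype ι) (F : ι → M) :
    @Finset.sum ι M _ (@Finset.univ ι i1) F = @Finset.sum ι M _ (@Finset.univ ι i2) F := by
  rw [Subsingleton.elim i1 i2]

section

variable {R V A B : Type} [CommRing R] [CommGroup V] [Ring A] [Algebra R A] [Ring B] [Algebra R B]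
  {α : V →* A} {W : Subgroup V}

/-- two linear maps which agree on the homogeneous elements are equal -/
theorem ext_lin [Finite V] (N : IsNW R α W B) {M : Type} [AddCommGroup M] [Module R M]
    (L L' : B →ₗ[R] M)
    (h : ∀ δ, ∀ a ∈ FxR (bw R α) (twW W δ), L (N.β δ a) = L' (N.β δ a)) (x : B) : L x = L' x := by
  have : Finite (MulAut W) := Finite.of_injective (fun f => (f : W → W)) DFunLike.coe_injective
  have : Fintype (MulAut W) := Fintype.ofFinite _
  obtain ⟨f, hf, rfl⟩ := N.spn x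
  rw [finsum_eq_sum_of_fintype, map_sum, map_sum]
  exact Finset.sum_congr rfl fun ε _ => h ε (f ε) (hf ε)

theorem tw_pg {ℓ : ℕ} [Finite V] (hV : IsPGroup ℓ V) (ε : MulAut W) :
    IsPGroup ℓ (twW W ε) := by
  rw [twW_eq]
  exact (hV.to_subgroup W).of_surjective (tm W ε).rangeRestrict
    (tm W ε).rangeRestrict_surjective

theorem bw_apply (h : V × V) (a : A) : bw R α h a = α h.1 * (a * α h.2⁻¹) := rfl

theorem bw_Fx (h : V × V) {δ : MulAut W} {a : A} (ha : a ∈ FxR (bw R α) (twW W δ)) :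
    bw R α h a ∈ FxR (bw R α) (twW W δ) := by
  intro p hp
  rw [← Module.End.mul_apply, ← map_mul, mul_comm, map_mul, Module.End.mul_apply, ha p hp]

theorem bw_nw (N : IsNW R α W B) (h : V × V) {δ : MulAut W} {a : A}
    (ha : a ∈ FxR (bw R α) (twW W δ)) :
    bw R N.nwh h (N.β δ a) = N.β δ (bw R α h a) := by
  rw [bw_apply, bw_apply, N.nwh_apply, N.nwh_apply]
  have h1 := N.mul δ 1 a ha (α h.2⁻¹) (al_mem_tw h.2⁻¹ W)
  rw [mul_one] at h1
  have h3 := Fx_mul α W δ 1 ha (al_mem_tw (R := R) (α := α) h.2⁻¹ W)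
  rw [mul_one] at h3
  have h2 := N.mul 1 δ (α h.1) (al_mem_tw h.1 W) (a * α h.2⁻¹) h3
  rw [one_mul] at h2
  rw [h2, h1]

end

theorem nfr (frb : FrbStmt) : NfrStmt := by
  intro ℓ _ R V A B Ω _ _ _ _ _ _ _ _ _ α b c W N _ hℓ hV hF
  classical
  have : Finite (MulAut W) := Finite.of_injective (fun f => (f : W → W)) DFunLike.coe_injective
  have : Fintype (MulAut W) := Fintype.ofFinite _
  obtain ⟨g, hg, hk, hs⟩ := N.exists_hom
  have hfrb := fun ε : MulAut W => frb ℓ R (V × V) A Ω (bw R α) b c (twW W ε) hℓ (tw_pg hV ε)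
    inferInstance hF
  -- the functional on the graded algebra
  obtain ⟨L, hL⟩ : ∃ L : (Σ ε : MulAut W, Fp Ω (twW W ε)) → (gsub R α W →ₗ[R] R),
      ∀ t f, L t f = c t.2.1 (f.1.coeff t.1) := by
    refine ⟨fun t =>
      { toFun := fun f => c t.2.1 (f.1.coeff t.1)
        map_add' := ?_
        map_smul' := ?_ }, fun t f => rfl⟩
    · intro f h
      rw [← map_add]
      rfl
    · intro r f
      rw [RingHom.id_apply, ← map_smul]
      rfl
  have hL0 : ∀ t f, g f = 0 → L t f = 0 := by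
    intro t f hf
    rw [hL]
    exact (hfrb t.1).1 t.2.1 t.2.2 _ ((hk f).1 hf t.1)
  have hLe : ∀ t f f', g f = g f' → L t f = L t f' := by
    intro t f f' h
    have h1 : L t (f - f') = 0 := hL0 t _ (by rw [map_sub, h, sub_self])
    rw [map_sub] at h1
    exact sub_eq_zero.1 h1
  have hsi : ∀ x, g (Function.surjInv hg x) = x := Function.surjInv_eq hg
  obtain ⟨c', hc'⟩ : ∃ c' : (Σ ε : MulAut W, Fp Ω (twW W ε)) → (B →ₗ[R] R),
      ∀ t f, c' t (g f) = L t f := by
    refine ⟨fun t =>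
      { toFun := fun x => L t (Function.surjInv hg x)
        map_add' := ?_
        map_smul' := ?_ }, fun t f => hLe t _ _ (hsi _)⟩
    · intro x y
      rw [← map_add]
      exact hLe t _ _ (by rw [hsi, map_add, hsi, hsi])
    · intro r x
      rw [RingHom.id_apply, ← map_smul]
      exact hLe t _ _ (by rw [hsi, map_smul, hsi])
  have h1 : ∀ t, ∀ a ∈ FxR (bw R α) (twW W t.1), c' t (N.β t.1 a) = c t.2.1 a := by
    intro t a ha
    rw [← hs t.1 ⟨a, ha⟩, hc', hL]
    change c t.2.1 ((MonoidAlgebra.single t.1 a).coeff t.1) = _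
    rw [MonoidAlgebra.coeff_single, Finsupp.single_eq_same]
  have h2 : ∀ t δ, δ ≠ t.1 → ∀ a ∈ FxR (bw R α) (twW W δ), c' t (N.β δ a) = 0 := by
    intro t δ hδ a ha
    rw [← hs δ ⟨a, ha⟩, hc', hL]
    change c t.2.1 ((MonoidAlgebra.single δ a).coeff t.1) = _
    rw [MonoidAlgebra.coeff_single, Finsupp.single_apply, if_neg hδ, map_zero]
  have hb : ∀ t : (Σ ε : MulAut W, Fp Ω (twW W ε)), b t.2.1 ∈ FxR (bw R α) (twW W t.1) := by
    intro t p hp
    rw [← hF.1, show p • t.2.1 = t.2.1 from t.2.2 hp]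
  refine ⟨c', h1, h2, ?_, ?_, ?_⟩
  · intro h t
    change N.β t.1 (b (h • t.2.1)) = _
    rw [hF.1, bw_nw N h (hb t)]
  · intro h t m
    have key := ext_lin N ((c' (h • t)).comp (bw R N.nwh h)) (c' t) ?_ m
    · exact key
    · intro δ a ha
      rw [LinearMap.comp_apply, bw_nw N h ha]
      by_cases hδ : δ = t.1
      · subst hδ
        rw [h1 t a ha]
        exact (h1 (h • t) (bw R α h a) (bw_Fx h ha)).trans (hF.2.1 h t.2.1 a)
      · rw [h2 t δ hδ a ha]
        exact h2 (h • t) δ hδ _ (bw_Fx h ha)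
  · intro m
    have key := ext_lin N (∑ t : (Σ ε : MulAut W, Fp Ω (twW W ε)),
      (c' t).smulRight (N.β t.1 (b t.2.1))) LinearMap.id ?_ m
    · rw [LinearMap.sum_apply] at key
      exact key
    · intro δ a ha
      rw [LinearMap.sum_apply, LinearMap.id_apply]
      have h3 : ∀ t : (Σ ε : MulAut W, Fp Ω (twW W ε)),
          ((c' t).smulRight (N.β t.1 (b t.2.1))) (N.β δ a) =
            c' t (N.β δ a) • N.β t.1 (b t.2.1) := fun t => rfl
      rw [Finset.sum_congr rfl fun t _ => h3 t, sum_inst _ Sigma.instFintype,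
        Fintype.sum_sigma, Finset.sum_eq_single δ]
      · have h4 : ∀ ω : Fp Ω (twW W δ), c' ⟨δ, ω⟩ (N.β δ a) • N.β δ (b ω.1) =
            N.β δ (c ω.1 a • b ω.1) := by
          intro ω
          rw [h1 ⟨δ, ω⟩ a ha, map_smul]
        rw [Finset.sum_congr rfl fun ω _ => h4 ω, ← map_sum]
        have h5 := (hfrb δ).2 a ha
        have h6 := (N.ker δ _ (BKR_le_FxR h5)).2 h5
        rw [map_sub] at h6
        exact (sub_eq_zero.1 h6).symm
      · intro ε _ hε
        refine Finset.sum_eq_zero fun ω _ => ?_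
        rw [h2 ⟨ε, ω⟩ δ (Ne.symm hε) a ha, zero_smul]
      · intro h
        exact absurd (Finset.mem_univ δ) h

end Pool.Agent.PSS.H45
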