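import Pool.Agent.PSS.StmtsOB

/-!
# Squad PSS, row XCW (helper45): 2-cocycles relative to a subgroup
-/

set_option autoImplicit false

noncomputable section

namespace Pool.Agent.PSS.H45

/-- The class of a point modulo the subgroup `W`. -/
def cls {V Ω : Type} [CommGroup V] [MulAction V Ω] (W : Subgroup V) (ω : Ω) :
    MulAction.orbitRel.Quotient W Ω := Quotient.mk'' ω

theorem cls_eq {V Ω : Type} [CommGroup V] [MulAction V Ω] (W : Subgroup V) (ω ω' : Ω) :
    cls W ω = cls W ω' ↔ ∃ w ∈ W, w • ω' = ω := by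
  constructor
  · intro h
    have h1 : MulAction.orbitRel W Ω ω ω' := Quotient.exact h
    obtain ⟨w, hw⟩ := h1
    exact ⟨w.1, w.2, hw⟩
  · rintro ⟨w, hw, h⟩
    exact Quotient.sound ⟨⟨w, hw⟩, h⟩

theorem cls_out {V Ω : Type} [CommGroup V] [MulAction V Ω] (W : Subgroup V)
    (x : MulAction.orbitRel.Quotient W Ω) : cls W x.out = x := Quotient.out_eq x

theorem cls_smul {V Ω : Type} [CommGroup V] [MulAction V Ω] (W : Subgroup V) (u u' : V)
    (ω ω' : Ω) (hu : (u : V ⧸ W) = (u' : V ⧸ W)) (h : cls W ω = cls W ω') :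
    cls W (u • ω) = cls W (u' • ω') := by
  obtain ⟨w, hw, hω⟩ := (cls_eq W _ _).1 h
  have h1 : u⁻¹ * u' ∈ W := QuotientGroup.eq.1 hu
  refine (cls_eq W _ _).2 ⟨w * (u⁻¹ * u')⁻¹, W.mul_mem hw (W.inv_mem h1), ?_⟩
  rw [← hω, ← mul_smul, ← mul_smul]
  congr 1
  have h2 : (u⁻¹ * u')⁻¹ = u * u'⁻¹ := by rw [mul_inv_rev, inv_inv, mul_comm]
  rw [h2, mul_assoc, inv_mul_cancel_right, mul_comm]

/-- The action of `V ⧸ W` on the classes of points. -/
@[reducible] def act {V Ω : Type} [CommGroup V] [MulAction V Ω] (W : Subgroup V) :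
    MulAction (V ⧸ W) (MulAction.orbitRel.Quotient W Ω) where
  smul q x := cls W (q.out • x.out)
  one_smul x := by
    change cls W ((1 : V ⧸ W).out • x.out) = x
    rw [cls_smul W (1 : V ⧸ W).out 1 x.out x.out
      ((QuotientGroup.out_eq' (1 : V ⧸ W)).trans (QuotientGroup.mk_one W).symm) rfl,
      one_smul, cls_out]
  mul_smul q r x := by
    change cls W ((q * r).out • x.out) = cls W (q.out • (cls W (r.out • x.out)).out)
    rw [cls_smul W q.out q.out (cls W (r.out • x.out)).out (r.out • x.out) rfl (cls_out W _),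
      ← mul_smul]
    refine cls_smul W _ _ _ _ ?_ rfl
    rw [QuotientGroup.out_eq', QuotientGroup.mk_mul, QuotientGroup.out_eq',
      QuotientGroup.out_eq']

/-- XCW -/
theorem xcw (hX : XcoStmt) : XcwStmt := by
  classical
  intro V Ω D _ _ _ W f hD hW hsym hcoc
  let _ : MulAction (V ⧸ W) (MulAction.orbitRel.Quotient W Ω) := act W
  have hact : ∀ (u : V) (ω : Ω), (u : V ⧸ W) • cls W ω = cls W (u • ω) := by
    intro u ω
    change cls W ((u : V ⧸ W).out • (cls W ω).out) = _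
    exact cls_smul W _ _ _ _ (QuotientGroup.out_eq' _) (cls_out W _)
  -- `f` depends on the classes only
  have hf : ∀ (u u' v v' : V) (ω ω' : Ω), (u : V ⧸ W) = (u' : V ⧸ W) →
      (v : V ⧸ W) = (v' : V ⧸ W) → cls W ω = cls W ω' → f u v ω = f u' v' ω' := by
    intro u u' v v' ω ω' hu hv hω
    obtain ⟨w, hw, h1⟩ := (cls_eq W _ _).1 hω
    have h2 : u⁻¹ * u' ∈ W := QuotientGroup.eq.1 hu
    have h3 : v⁻¹ * v' ∈ W := QuotientGroup.eq.1 hv
    have e2 : u' = u * (u⁻¹ * u') := by rw [mul_inv_cancel_left]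
    have e3 : v' = v * (v⁻¹ * v') := by rw [mul_inv_cancel_left]
    rw [e2, e3, (hW _ h2 _ _ _).1, (hW _ h3 _ _ _).2.1, ← h1, (hW w hw _ _ _).2.2]
  have hsymW : ∀ (ω : Ω) (u v : V), cls W (u • ω) = cls W ω → cls W (v • ω) = cls W ω →
      f u v ω = f v u ω := by
    intro ω u v hu hv
    obtain ⟨w, hw, h1⟩ := (cls_eq W _ _).1 hu.symm
    obtain ⟨w', hw', h2⟩ := (cls_eq W _ _).1 hv.symm
    have k1 : ((u : V) : V ⧸ W) = ((w * u : V) : V ⧸ W) := by
      rw [QuotientGroup.eq, mul_comm w u, inv_mul_cancel_left]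
      exact hw
    have k2 : ((v : V) : V ⧸ W) = ((w' * v : V) : V ⧸ W) := by
      rw [QuotientGroup.eq, mul_comm w' v, inv_mul_cancel_left]
      exact hw'
    rw [hf u (w * u) v (w' * v) ω ω k1 k2 rfl, hf v (w' * v) u (w * u) ω ω k2 k1 rfl]
    refine hsym ω _ _ ?_ ?_
    · rw [mul_smul, h1]
    · rw [mul_smul, h2]
  obtain ⟨g, hg⟩ := hX (V ⧸ W) (MulAction.orbitRel.Quotient W Ω) D
    (fun q r x => f q.out r.out x.out) hD (by
      intro x u v hu hv
      refine hsymW x.out u.out v.out ?_ ?_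
      · rw [cls_out]; exact hu
      · rw [cls_out]; exact hv) (by
      intro u v w x
      have h1 := hcoc u.out v.out w.out x.out
      have a1 : f v.out w.out (u⁻¹ • x).out = f v.out w.out (u.out⁻¹ • x.out) := by
        refine hf _ _ _ _ _ _ rfl rfl ?_
        rw [cls_out, ← hact, QuotientGroup.mk_inv, QuotientGroup.out_eq', cls_out]
      have a2 : f (u * v).out w.out x.out = f (u.out * v.out) w.out x.out := by
        refine hf _ _ _ _ _ _ ?_ rfl rfl
        rw [QuotientGroup.out_eq', QuotientGroup.mk_mul, QuotientGroup.out_eq',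
          QuotientGroup.out_eq']
      have a3 : f u.out (v * w).out x.out = f u.out (v.out * w.out) x.out := by
        refine hf _ _ _ _ _ _ rfl ?_ rfl
        rw [QuotientGroup.out_eq', QuotientGroup.mk_mul, QuotientGroup.out_eq',
          QuotientGroup.out_eq']
      rw [a1, a2, a3]
      exact h1)
  refine ⟨fun u ω => g u (cls W ω), ?_, ?_⟩
  · intro w hw u ω
    have k1 : ((u * w : V) : V ⧸ W) = ((u : V) : V ⧸ W) := by
      rw [QuotientGroup.eq, mul_inv_rev, mul_assoc, inv_mul_cancel, mul_one]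
      exact W.inv_mem hw
    have k2 : cls W (w • ω) = cls W ω := (cls_eq W _ _).2 ⟨w, hw, rfl⟩
    dsimp only
    rw [k1, k2]
    exact ⟨rfl, rfl⟩
  · intro u v ω
    have h1 := hg (u : V ⧸ W) (v : V ⧸ W) (cls W ω)
    dsimp only at h1 ⊢
    rw [← hf (u : V ⧸ W).out u (v : V ⧸ W).out v (cls W ω).out ω (QuotientGroup.out_eq' _)
      (QuotientGroup.out_eq' _) (cls_out W _), h1, ← QuotientGroup.mk_inv, hact,
      QuotientGroup.mk_mul]

end Pool.Agent.PSS.H45
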